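import Pool.Agent.K1H74.SC.Uq
import Pool.Agent.K1H74.SC.E8

/-!
# The pro-`ℓ` section conjecture for cyclic coverings of the line

Let `k` be a finite extension of `ℚ_p`, let `k'/k` be a finite Galois extension with valuation ring
`A'`, and let `ℓ ≠ p` be a prime number.  Let `e_1, …, e_n ∈ A'`, `n ≥ 2`, be elements with different
residues, let `r_1, …, r_n` be natural numbers such that `ℓ` divides none of them and does not divide
their sum, and let `d ∈ k'` be an element whose valuation is not divisible by `ℓ`.  Let `C` be a smooth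
projective curve over `k` that becomes isomorphic over `k'` to the curve

  `D : d t^ℓ = (u - e_1)^(r_1) ⋯ (u - e_n)^(r_n)`

of genus `(ℓ - 1)(n - 1)/2`, and such that the set of the branch points `e_1, …, e_n, ∞` of the covering
`u : D → ℙ¹` is defined over `k`.  Let `F` be the function field of `C`, let `M` be the maximal pro-`ℓ`
extension of `k̄ F` that is unramified over `C`, and let `Y → C` be a finite étale covering, `Y`
geometrically connected, with function field `L ⊆ M`.  Then `Gal(M/L)` is the geometrically pro-`ℓ`
fundamental group of `Y`, the quotient of `π₁(Y)` by the kernel of `π₁(Y_k̄) → π₁(Y_k̄)^(pro-ℓ)`.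

**Theorem.**  Every section `s` of `Gal(M/L) → G_k` is the section of exactly one point of `Y` above a
branch point of `D`, and this is a `k`-rational point of `Y`.  Moreover `s` is the only section with
its image in the decomposition group of this point.

So `D` is an arbitrary cyclic covering of degree `ℓ` of the line, branched at `n + 1` points with
different reductions: the ramification exponents `r_1, …, r_n` and `- (r_1 + ⋯ + r_n)` (at `∞`) are
arbitrary.  The earlier results (`ProEllSections`, `EtaleCoverings`, `PotentiallyGoodCurves`) treat the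
curves `d y^ℓ = f(x)`, `ℓ ∣ deg f`, `f` with separable reduction, where all the exponents are equal.
For `ℓ = 2` this is not a restriction, but for `ℓ ≥ 3` most cyclic coverings of degree `ℓ` with good
reduction are not of this form.  The points with different reductions generate an unramified extension
of the field, so it is also not a restriction that `k'` contains the branch points.

Examples.  (1) `n = 2`: the twists of the quotients `t^ℓ = u^r (1 - u)^s` of the Fermat curve of degree
`ℓ`, of genus `(ℓ - 1)/2`, for instance (`ℓ = 7`, `(r, s) = (2, 1)`) twists of the Klein quartic.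
(2) `r_1 = ⋯ = r_n = 1`: the curves `y^ℓ = f(x)` whose degree is not divisible by `ℓ`.  For instance the
Picard curve `y³ = x⁴ - p` over `ℚ_p`, `p ≥ 5`, has the form above with `k' = ℚ_p(π, i)`, `π⁴ = p`: with
`x = π v` it is `p⁻¹ y³ = v⁴ - 1`.  Its only `ℚ_p`-rational branch point is the point at infinity, so its
geometrically pro-3 fundamental group has exactly one section up to conjugation, and for an étale
covering `Y` of 3-power type without rational points above infinity there is no section of
`π₁(Y) → G_k`.

Proof.  Over `k'`: let `s` be a section.  (1) Let `x_i ∈ Ω`, `x_i^ℓ = u - e_i`.  The extension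
`k̄ F(x_1, …, x_n)` of `k̄ F` is unramified, because the valuation of `u - e_i` at all points is divisible
by `ℓ`; this uses that `ℓ` divides none of the exponents, `∞` included.  So `x_i ∈ M`.  (2) The field
`k̄(x_1, …, x_n)` is unramified over all cyclic coverings of degree `ℓ` with the same branch points, so
the maximal unramified pro-`ℓ` extensions of all of them are the same field `M`.  (3) The
automorphisms `s(σ)` multiply `x_i` by `ℓ`-th roots of unity, and by Hilbert's Theorem 90 `x_i` can be
multiplied by a constant such that it is fixed by all `s(σ)`; then `b_i x_i^ℓ = u - e_i` with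
`b_i ∈ k'ˣ`.  The element `t / ∏ x_i^(r_i)` is a constant, fixed by `G_k'`, so it is in `k'` and
`∑ r_i v(b_i) ≡ v(d)` modulo `ℓ`.  So the valuation of one of the `b_i` is not divisible by `ℓ`.
(4) After a translation of `u` let `e_i = 0`; with `x = x_i` the field `k'(x)` has the curve
`B y^ℓ = ∏_(j ≠ i) (b_i x^ℓ - e_j)` over it, where `y` is the product of the `x_j`, and `s` is a section
for this curve, with the same field `M`.  The starting theorem `TwistsByRotations` (library
`Pool.Agent.R925.L`) can be applied to it, because the valuation of `b_i` is not divisible by `ℓ`: this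
gives the unique prolongation `W` above a branch point which is fixed by `s`.  (5) The descent from `k'`
to `k` is the one of `PotentiallyGoodCurves` (library `Pool.Agent.K1H4.SC`): for `σ ∈ G_k` the valuation
ring `s(σ) W` has the property which determines `W`, so `s(σ) W = W`.  (6) The residue field of `W` is
`k̄`; an element of `L ∩ M` which is fixed by `s` has a residue fixed by `G_k`.  Two sections with the
same `W` agree, as in `EtaleCoverings`.

The theorem is stated for an arbitrary extension `N ⊇ M` of `F` instead of `M`, this includes `N = M`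
and the field of `π₁(Y)`, and for the sections of `Gal(N/L)`, where `L` is any extension of `F`: these
are the sections of `Gal(N/F)` whose values are the identity on `L`.
-/

set_option autoImplicit false
set_option linter.overlappingInstances false

open Polynomial

namespace Pool.Agent.Results.MP_c385f6_ag.CyclicCoverings

section definitions

/-- `k̄ F`, the compositum of `F` and of the algebraic closure of `k` in `Ω`. -/
noncomputable def geomField (k F Ω : Type) [Field k] [Field F] [Field Ω] [Algebra F Ω]
    [Algebra k Ω] : IntermediateField F Ω :=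
  IntermediateField.adjoin F (algebraicClosure k Ω : Set Ω)

/-- The algebraic extension `L` of `K` in `Ω` is unramified at all valuation rings of `Ω` that
contain `k`: every nonzero element of `L` has the same valuation as an element of `K`.  (If `K` is
a function field of one variable over the algebraic closure of `k` and `k` has characteristic zero,
then this says that `L/K` is unramified over all points of the smooth projective curve.) -/
def Unramified {k K Ω : Type} [Field k] [Field K] [Field Ω] [Algebra k Ω] [Algebra K Ω]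
    (L : IntermediateField K Ω) : Prop :=
  ∀ W : ValuationSubring Ω, (∀ c : k, algebraMap k Ω c ∈ W) → ∀ z ∈ L, z ≠ 0 →
    ∃ t : K, t ≠ 0 ∧ z / algebraMap K Ω t ∈ W ∧ (z / algebraMap K Ω t)⁻¹ ∈ W

/-- `L/K` is a finite Galois extension whose degree is a power of `ℓ`. -/
def FiniteProEll (ℓ : ℕ) {K Ω : Type} [Field K] [Field Ω] [Algebra K Ω]
    (L : IntermediateField K Ω) : Prop :=
  FiniteDimensional K L ∧ IsGalois K L ∧ ∃ m : ℕ, Module.finrank K L = ℓ ^ m

/-- The maximal unramified pro-`ℓ` extension of `K` in `Ω`: the compositum of the finite Galois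
extensions of `K` whose degree is a power of `ℓ` and which are unramified. -/
noncomputable def maxProEll (ℓ : ℕ) (k K Ω : Type) [Field k] [Field K] [Field Ω] [Algebra k Ω]
    [Algebra K Ω] : IntermediateField K Ω :=
  ⨆ L : {L : IntermediateField K Ω // FiniteProEll ℓ L ∧ Unramified (k := k) L}, L.1

/-- `M`, the maximal unramified pro-`ℓ` extension of `k̄ F` in `Ω`, as an extension of `F`. -/
noncomputable def proEllField (ℓ : ℕ) (k F Ω : Type) [Field k] [Field F] [Field Ω] [Algebra F Ω]
    [Algebra k Ω] : IntermediateField F Ω :=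
  (maxProEll ℓ k (geomField k F Ω) Ω).restrictScalars F

/-- The map `τ : M → M` acts as `σ : K → K` on the elements that the fields `K` and `M` have in
common when they are regarded as subfields of `Ω` through `i` and `j`. -/
def ActsAs {K M Ω : Type} [Field K] [Field M] [Field Ω] (i : K →+* Ω) (j : M →+* Ω) (σ : K → K)
    (τ : M → M) : Prop :=
  ∀ c z, j z = i c → j (τ z) = i (σ c)

/-- Let `k ⊆ K ⊆ Ω` and `F ⊆ N ⊆ Ω` be fields.  A splitting of `Gal(N/F) → Gal(K/k)`: a continuous
homomorphism `s` from `Gal(K/k)` to `Gal(N/F)` such that `s(σ)` acts as `σ` on the elements of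
`K ∩ N`. -/
structure Splitting (k F Ω K N : Type) [Field k] [Field F] [Field Ω] [Field K] [Field N]
    [Algebra k K] [Algebra F N] [Algebra K Ω] [Algebra N Ω] where
  /-- the homomorphism `Gal(K/k) → Gal(N/F)` -/
  toHom : (K ≃ₐ[k] K) →* (N ≃ₐ[F] N)
  cont : Continuous toHom
  compat : ∀ σ : K ≃ₐ[k] K, ActsAs (algebraMap K Ω) (algebraMap N Ω) σ (toHom σ)

/-- The valuation ring `W` of `N` contains `k`, and the function `h ∈ F` is in its maximal ideal. -/
def ZeroAt (k : Type) {F N : Type} [Field k] [Field F] [Field N] [Algebra k F] [Algebra F N]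
    (W : ValuationSubring N) (h : F) : Prop :=
  (∀ c : k, algebraMap F N (algebraMap k F c) ∈ W) ∧ algebraMap F N h ∈ W.nonunits

/-- The image of `s : Gal(K/k) → Gal(N/F)` in `Gal(M/F)`, where `M ⊆ N ⊆ Ω`, is contained in the
decomposition group of the valuation ring `W ∩ M`. -/
def InDecomposition {k F Ω K N : Type} [Field k] [Field F] [Field Ω] [Field K] [Field N]
    [Algebra k K] [Algebra F N] [Algebra F Ω] [Algebra K Ω] [Algebra N Ω]
    (s : Splitting k F Ω K N) (M : IntermediateField F Ω) (W : ValuationSubring N) : Prop :=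
  ∀ σ, ∀ z : N, algebraMap N Ω z ∈ M → (s.toHom σ z ∈ W ↔ z ∈ W)

/-- The splittings `s` and `s'` of `Gal(N/F) → Gal(K/k)` agree on `M`. -/
def AgreeOn {k F Ω K N : Type} [Field k] [Field F] [Field Ω] [Field K] [Field N]
    [Algebra k K] [Algebra F N] [Algebra F Ω] [Algebra K Ω] [Algebra N Ω]
    (M : IntermediateField F Ω) (s s' : Splitting k F Ω K N) : Prop :=
  ∀ σ, ∀ z : N, algebraMap N Ω z ∈ M → s.toHom σ z = s'.toHom σ z

/-- The residue field of `W ∩ L ∩ M` is `k`. -/
def RationalResidue (k : Type) {F Ω N : Type} [Field k] [Field F] [Field Ω] [Field N]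
    [Algebra k F] [Algebra F N] [Algebra F Ω] [Algebra N Ω]
    (M L : IntermediateField F Ω) (W : ValuationSubring N) : Prop :=
  ∀ z : N, algebraMap N Ω z ∈ L → algebraMap N Ω z ∈ M → z ∈ W →
    ∃ c : k, z - algebraMap F N (algebraMap k F c) ∈ W.nonunits

/-- Let the splitting `s` of `Gal(N/F) → Gal(K/k)`, `M ⊆ N`, have its image in `Gal(N/L)`, and let
`h ∈ F`.  The splitting `s` induces on `M` the section of exactly one point where `h` is zero, and this
is a rational point: there is a valuation ring `W` of `N` above such a point, such that the residue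
field of `W ∩ L ∩ M` is `k` (for `L ⊆ M` this is the residue field of `W ∩ L`), and such that the image
of `s` in `Gal(M/F)` is contained in the decomposition group of `W ∩ M`; all splittings with the last
property induce the same section on `M`; and `W ∩ M` is the only such valuation ring above a point
where `h` is zero. -/
def FromOneZero {k F Ω K N : Type} [Field k] [Field F] [Field Ω] [Field K] [Field N]
    [Algebra k F] [Algebra k K] [Algebra F N] [Algebra F Ω] [Algebra K Ω] [Algebra N Ω]
    (h : F) (s : Splitting k F Ω K N) (M L : IntermediateField F Ω) : Prop :=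
  ∃ W : ValuationSubring N,
    ZeroAt k W h ∧ RationalResidue k M L W ∧ InDecomposition s M W ∧
    (∀ s' : Splitting k F Ω K N, InDecomposition s' M W → AgreeOn M s s') ∧
    ∀ W' : ValuationSubring N, ZeroAt k W' h → InDecomposition s M W' →
      ∀ z : N, algebraMap N Ω z ∈ M → (z ∈ W' ↔ z ∈ W)

/-- Every section of `Gal(N/L) → Gal(K/k)`, that is, every splitting `s` of `Gal(N/F) → Gal(K/k)` all
of whose values are the identity on `L`, induces on `M` the section of exactly one point where `h` is
zero, and this is a rational point (`FromOneZero`). -/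
def AllFromOneZero (k : Type) {F Ω : Type} (K N : Type) [Field k] [Field F] [Field Ω] [Field K]
    [Field N] [Algebra k F] [Algebra k K] [Algebra F N] [Algebra F Ω] [Algebra K Ω] [Algebra N Ω]
    (h : F) (M L : IntermediateField F Ω) : Prop :=
  ∀ s : Splitting k F Ω K N, (∀ σ, ∀ z : N, algebraMap N Ω z ∈ L → s.toHom σ z = z) →
    FromOneZero h s M L

/-- Let `k ⊆ k' ⊆ Ω` and `k ⊆ F ⊆ Ω` be fields, `u, t ∈ Ω` and `h ∈ F`.  The field `F` is the
function field of a curve `C` over `k`, `C` becomes isomorphic to the curve `d t^ℓ = P(u)` over `k'`,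
and the set of the points where `P(u) = 0` or `u = ∞` is defined over `k`.  That is: `F` is an
algebraic extension of `k(v)` for an element `v` transcendental over `k`; `u` is transcendental over
`k'`, `d t^ℓ = P(u)`, and `k'(u, t)` is the compositum `k' F`; and the points where `P(u) = 0` or
`u = ∞` are the zeros of the function `h ∈ F`: a valuation ring of `Ω` that contains `k'` has `h` in
its maximal ideal if and only if it has `P(u)` or `1/u` in its maximal ideal. -/
structure IsForm (k : Type) {k' F Ω : Type} [Field k] [Field k'] [Field F] [Field Ω]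
    [Algebra k F] [Algebra F Ω] [Algebra k' Ω] (ℓ : ℕ) (P : k'[X]) (d : k') (u t : Ω) (h : F) :
    Prop where
  oneVar : ∃ v : F, Transcendental k v ∧ Algebra.IsAlgebraic (IntermediateField.adjoin k {v}) F
  trans : Transcendental k' u
  eqn : algebraMap k' Ω d * t ^ ℓ = aeval u P
  gen : IntermediateField.adjoin k' {u, t} =
    IntermediateField.adjoin k' (Set.range (algebraMap F Ω))
  zeros : ∀ V : ValuationSubring Ω, (∀ c : k', algebraMap k' Ω c ∈ V) →
    (algebraMap F Ω h ∈ V.nonunits ↔ aeval u P ∈ V.nonunits ∨ u⁻¹ ∈ V.nonunits)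

/-- Let `F` be the function field of a curve `C` over `k` that becomes isomorphic to the curve
`d t^ℓ = P(u)` over `k'`, where the points with `P(u) = 0` or `u = ∞` are the zeros of `h ∈ F`
(`IsForm`).  Let `Ω` be an algebraic closure of `F` that contains `k'`, and
`M = proEllField ℓ k F Ω`.  For all extensions `N ⊇ M` of `F` in `Ω`, for instance `N = M`, and all
extensions `L` of `F` in `Ω`, for instance `L = F` or the function field of an étale covering of `C`
with `L ⊆ M`, every section of `Gal(N/L) → G_k` induces on `M` the section of exactly one of the points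
where `h` is zero, and this is a rational point. -/
def SectionsOfForms (k : Type) {k' : Type} [Field k] [Field k'] [Algebra k k'] (ℓ : ℕ) (P : k'[X])
    (d : k') : Prop :=
  ∀ (F Ω : Type) [Field F] [Field Ω] [Algebra k F] [Algebra F Ω] [Algebra k Ω]
    [IsScalarTower k F Ω] [IsAlgClosure F Ω] [Algebra k' Ω] [IsScalarTower k k' Ω] (u t : Ω)
    (h : F), IsForm k ℓ P d u t h →
    ∀ L N : IntermediateField F Ω, proEllField ℓ k F Ω ≤ N →
      AllFromOneZero k (algebraicClosure k Ω) N h (proEllField ℓ k F Ω) L

/-- The valuation of `d` is not divisible by `ℓ`: `d = w ϖ^i` with `w` invertible in `A`, `ϖ` a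
uniformiser and `i` not divisible by `ℓ`. -/
def ValuationPrimeTo (A : Type) {k : Type} [CommRing A] [Field k] [Algebra A k] (ℓ : ℕ) (d : k) :
    Prop :=
  ∃ (ϖ w : A) (i : ℤ), Irreducible ϖ ∧ IsUnit w ∧ ¬ (ℓ : ℤ) ∣ i ∧
    d = algebraMap A k w * algebraMap A k ϖ ^ i

end definitions

lemma iSup_congr_prop {α : Type} [CompleteLattice α] {P Q : α → Prop} (h : ∀ L, P L ↔ Q L) :
    (⨆ L : {L // P L}, L.1) = ⨆ L : {L // Q L}, L.1 := by
  have h1 : P = Q := funext fun L => propext (h L)
  subst h1
  rfl

lemma proEll_eq (ℓ : ℕ) (k F Ω : Type) [Field k] [Field F] [Field Ω] [Algebra k F] [Algebra F Ω]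
    [Algebra k Ω] : proEllField ℓ k F Ω = Pool.Agent.Y157.PS.geomPro ℓ k F Ω := by
  unfold proEllField Pool.Agent.Y157.PS.geomPro maxProEll Pool.Agent.Y157.PS.maxPro
  congr 1
  refine iSup_congr_prop fun L => ?_
  constructor
  · rintro ⟨⟨h1, h2, h3⟩, h4⟩
    refine ⟨⟨h1, h2, h3⟩, fun W hW z hz hz0 => ?_⟩
    obtain ⟨t, ht, h5, h6⟩ := h4 W hW z hz hz0
    exact ⟨t, ht, div_ne_zero hz0 ((_root_.map_ne_zero _).2 ht), h5, h6⟩
  · rintro ⟨⟨h1, h2, h3⟩, h4⟩
    refine ⟨⟨h1, h2, h3⟩, fun W hW z hz hz0 => ?_⟩
    obtain ⟨t, ht, -, h5, h6⟩ := h4 W hW z hz hz0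
    exact ⟨t, ht, h5, h6⟩

/-- Descent from `k'` to `k`. -/
theorem descent {k' k : Type} [Field k'] [CharZero k'] [Field k] [Algebra k k'] [Normal k k']
    (ℓ : ℕ) [Fact ℓ.Prime] (P : k'[X]) (d : k')
    (hU : ∀ (F Ω : Type) [Field F] [Field Ω] [Algebra F Ω] [Algebra k' Ω] [IsAlgClosed Ω]
      [Algebra.IsAlgebraic F Ω] (u t : Ω), Transcendental k' u →
      algebraMap k' Ω d * t ^ ℓ = aeval u P →
      IntermediateField.adjoin k' {u, t} =
        IntermediateField.adjoin k' (Set.range (algebraMap F Ω)) →
      Pool.Agent.K1H4.SC.Unique1 ℓ k' (IntermediateField.adjoin k' {u, t}) Ω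
        (fun V => aeval u P ∈ V.nonunits ∨ u⁻¹ ∈ V.nonunits)) : SectionsOfForms k ℓ P d := by
  intro F Ω _ _ _ _ _ _ _ _ _ u t h hform L N hN s hsL
  have hchar : CharZero k := (algebraMap k k').charZero
  have hcl : IsAlgClosed Ω := IsAlgClosure.isAlgClosed F
  have halg : Algebra.IsAlgebraic F Ω := IsAlgClosure.isAlgebraic
  obtain ⟨v, hv, hv'⟩ := hform.oneVar
  have hcompat : ∀ (s : Splitting k F Ω (algebraicClosure k Ω) N) σ
      (c : algebraicClosure k Ω) (z : N), (z : Ω) = (c : Ω) →
      (s.toHom σ z : Ω) = (σ c : Ω) := fun s σ c z hz => s.compat σ c z hz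
  rw [proEll_eq] at hN ⊢
  have hQ := hU F Ω u t hform.trans hform.eqn hform.gen
  obtain ⟨W, h1, h2, h3, h4, h5⟩ := Pool.Agent.K1H4.SC.coreG
    (IntermediateField.adjoin k' {u, t}) hform.gen h _ hform.zeros hQ v hv hv' N hN
    s.toHom s.cont (hcompat s)
  refine ⟨W, ⟨h1, h2⟩, fun z hzL hzM hzW => ?_, h4, fun s' hs' => ?_, fun W' b1 b2 => ?_⟩
  · exact Pool.Agent.K1H74.SC.rational_res N hN s.toHom (hcompat s) W h1
      (Pool.Agent.K1H74.SC.exists_res N hN W h1 h3) h4 z hzM (fun σ => hsL σ z hzL) hzW
  · exact Pool.Agent.K1H74.SC.unique_sec N hN s.toHom s'.toHom (hcompat s) (hcompat s') W h1 h3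
      h4 hs'
  · exact h5 W' b1.1 b1.2 b2

/-- The residues of the elements `e_i` of the local ring `A` are pairwise different. -/
def DistinctResidues {A ι : Type} [CommRing A] (e : ι → A) : Prop :=
  ∀ i j, i ≠ j → IsUnit (e i - e j)

/-- The curves over `k` that become isomorphic over `k'` to the curve
`d t^ℓ = (u - e_1)^(r_1) ⋯ (u - e_n)^(r_n)`. -/
theorem result (A' k' k : Type) [CommRing A'] [IsDomain A'] [IsDiscreteValuationRing A']
    [IsAdicComplete (IsLocalRing.maximalIdeal A') A'] [Finite (IsLocalRing.ResidueField A')]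
    [Field k'] [CharZero k'] [Algebra A' k'] [IsFractionRing A' k'] [Field k] [Algebra k k']
    [Normal k k'] (ℓ : ℕ) [Fact ℓ.Prime] (hℓ : IsUnit (ℓ : A')) (n : ℕ) (hn : 2 ≤ n)
    (e : Fin n → A') (he : DistinctResidues e) (r : Fin n → ℕ) (hr : ∀ i, ¬ ℓ ∣ r i)
    (hrs : ¬ ℓ ∣ ∑ i, r i) (d : k') (hd : ValuationPrimeTo A' ℓ d) :
    SectionsOfForms k ℓ (∏ i, (X - C (algebraMap A' k' (e i))) ^ r i) d := by
  obtain ⟨ϖ, w, δ, hϖ, hw, hδ, hd⟩ := hd
  refine descent ℓ _ d ?_
  intro F Ω _ _ _ _ _ _ u t hu hut hF
  exact Pool.Agent.K1H74.SC.uniq_exps hℓ (by rwa [Fintype.card_fin]) e he r hr hrs ϖ hϖ d δ hδ w hw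
    hd u t hu hut hF

end Pool.Agent.Results.MP_c385f6_ag.CyclicCoverings
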