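import Pool.Agent.K1H4.SC.Rot
import Pool.Agent.Results.MP_c385f6_ag.EtaleCoverings

/-!
# The pro-`ℓ` section conjecture for étale coverings of forms of twists by rotations

Let `k` be a finite extension of `ℚ_p`, let `k'/k` be a finite Galois extension with valuation ring
`A'`, let `ℓ ≠ p` be a prime number and `m = ℓ^j`, `j ≥ 1`, let `g ∈ A'[x]` be a polynomial with
invertible leading coefficient such that the reduction of `g(x^m)` is separable and its degree is at
least 3, let `d ∈ k'` be any element different from zero, and let `a ∈ k'` be an element whose
valuation is not divisible by `m`.  Let `C` be a smooth projective curve over `k` that becomes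
isomorphic over `k'` to the curve `d y^ℓ = g(a x^m)`, of genus `(ℓ - 1)(m deg g - 2)/2`, and such that
the set of the points with `x = 0` or `x = ∞` is defined over `k`.  Nothing is assumed about the
extension `k'/k`, which may be ramified, or about the descent: the functions `x` and `x^m` need not
be defined over `k`.  Let `F₀` be the function field of `C`, let `M` be the maximal pro-`ℓ` extension of
`k̄ F₀` that is unramified over `C`, and let `Y → C` be a finite étale covering, `Y` geometrically
connected, with function field `L ⊆ M`.  Then `Gal(M/L)` is the geometrically pro-`ℓ` fundamental group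
of `Y`.

**Theorem.**  Every section `s` of `Gal(M/L) → G_k` is the section of exactly one point of `Y` above the
points `x = 0` and `x = ∞` of `C`, and this is a `k`-rational point of `Y`.  Moreover `s` is the only
section with its image in the decomposition group of this point.

So every section of the geometrically pro-`ℓ` fundamental group of such a curve `Y` over `k` comes from
a rational point, and if `π₁(Y) → G_k` has a section, then `Y` has a rational point; the section
conjecture is reduced to statements of this form.  The starting hand-in
`MP_c385f6_ag.TwistsByRotations` is the case `k' = k`, `Y = C`.  The theorem is new for `k' = k` and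
coverings `Y ≠ C`, and for `Y = C` and `k' ≠ k`.

Examples.  Let `p ≥ 5`.  The curve `y² = x⁶ - p` over `ℚ_p`, of genus 2, has the form above with
`ℓ = m = 2` and `k' = ℚ_p(π, ζ₃)`, `π³ = p`: it is the curve `π⁻³ y² = (π⁻¹ x²)³ - 1`.  The two points
with `x = ∞` are rational, and those with `x = 0` are not.  So the geometrically pro-2 fundamental
group has exactly two conjugacy classes of sections, those of the two points at infinity, and for an
étale covering `Y` of `2`-power type without rational points above them there are no sections of
`π₁(Y) → G_k`.  None of the starting hand-ins applies to this curve.  More generally let `N ≥ 3` be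
prime to `p` and divisible by `ℓ`, let `m = ℓ^j` be the exact power of `ℓ` which divides `N = m n`, and
let `b, c ∈ k` be such that the valuation of `c/b` is not divisible by `m`.  Then the theorem applies to
the curve `y^ℓ = b x^N + c` over `k`, with a splitting field `k'` of `t^n + c/b`, `g = t^n - 1`,
`a = λ⁻¹` and `d = -c⁻¹`, where `λ^n = -c/b`.  If the valuation of `c/b` is divisible by `m` and that of
`c` is not divisible by `ℓ`, then `MP_c385f6_ag.PotentiallyGoodCurves` applies to this curve; in the
remaining case it has good reduction over an extension of `k` of ramification index prime to `ℓ`.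

For `ℓ = 2` the curve `C` is a form of a hyperelliptic curve, and the quotient of `C` by the
hyperelliptic involution is a conic which need not have a rational point; this occurs when the Galois
group of `k'/k` interchanges the points `x = 0` and `x = ∞`, and then there are no sections.

Proof.  The algebraic closure of `k` in `Ω` contains `k'`, and the field `M` is the same for `F₀` and
for `k' F₀`.  The restriction of `s` to `G_{k'}` is a section of `Gal(M/k' F₀) → G_{k'}`.  By
`MP_c385f6_ag.TwistsByRotations` (library `Pool.Agent.R925.L`) its image is contained in the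
decomposition group of exactly one `W` above `x = 0` or `x = ∞`.  Let `σ ∈ G_k`.  As `k'/k` is normal,
`s(σ)` normalises `s(G_{k'})`, so `s(G_{k'})` is contained in the decomposition group of `s(σ) W`; this
is again above `x = 0` or `x = ∞`, because the set of these points is defined over `k`.  So
`s(σ) W = W`: the image of `s` is contained in the decomposition group of `W`.  The residue field of
`W ∩ L` is `k` and `s` is unique, as in `MP_c385f6_ag.EtaleCoverings`.
-/

set_option autoImplicit false
set_option linter.overlappingInstances false

open Polynomial

namespace Pool.Agent.Results.MP_c385f6_ag.FormsOfRotationTwists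

open Pool.Agent.Results.MP_c385f6_ag.EtaleCoverings

section definitions

/-- Let `k ⊆ k' ⊆ Ω` and `k ⊆ F₀ ⊆ Ω` be fields, `x, y ∈ Ω` and `h ∈ F₀`.  The field `F₀` is the
function field of a curve `C` over `k`, `C` becomes isomorphic to the curve `d y^ℓ = g(a x^m)` over
`k'`, and the set of the points where `x = 0` or `x = ∞` is defined over `k`.  That is: `F₀` is an
algebraic extension of `k(u)` for an element `u` transcendental over `k`; `x` is transcendental over
`k'`, `d y^ℓ = g(a x^m)`, and `k'(x, y)` is the compositum `k' F₀`; and the points where `x = 0` or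
`x = ∞` are the zeros of the function `h ∈ F₀`: a valuation ring of `Ω` that contains `k'` has `h` in
its maximal ideal if and only if it has `x` or `1/x` in its maximal ideal. -/
structure IsForm (k : Type) {k' F₀ Ω : Type} [Field k] [Field k'] [Field F₀] [Field Ω]
    [Algebra k F₀] [Algebra F₀ Ω] [Algebra k' Ω] (ℓ m : ℕ) (g : k'[X]) (a d : k') (x y : Ω)
    (h : F₀) : Prop where
  oneVar : ∃ u : F₀, Transcendental k u ∧
    Algebra.IsAlgebraic (IntermediateField.adjoin k {u}) F₀
  trans : Transcendental k' x
  eqn : algebraMap k' Ω d * y ^ ℓ = aeval (algebraMap k' Ω a * x ^ m) g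
  gen : IntermediateField.adjoin k' {x, y} =
    IntermediateField.adjoin k' (Set.range (algebraMap F₀ Ω))
  zeros : ∀ V : ValuationSubring Ω, (∀ c : k', algebraMap k' Ω c ∈ V) →
    (algebraMap F₀ Ω h ∈ V.nonunits ↔ x ∈ V.nonunits ∨ x⁻¹ ∈ V.nonunits)

/-- Let the splitting `s` of `Gal(N/F₀) → Gal(K/k)` have its image in `Gal(N/L)`, `L ⊆ M ⊆ N`, and
let `h ∈ F₀`.  The splitting `s` induces on `M` the section of exactly one point where `h` is zero,
and this is a `k`-rational point of the curve with function field `L`: there is a valuation ring `W`
of `N` that contains `k`, with `h` in its maximal ideal, such that the residue field of `W ∩ L` is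
`k`, and such that the image of `s` in `Gal(M/L)` is contained in the decomposition group of `W ∩ M`;
all splittings with the last property induce the same section on `M`; and `W ∩ M` is the only such
valuation ring where `h` is zero. -/
def FromOneZero {k F₀ Ω K N : Type} [Field k] [Field F₀] [Field Ω] [Field K] [Field N]
    [Algebra k F₀] [Algebra k K] [Algebra F₀ N] [Algebra F₀ Ω] [Algebra K Ω] [Algebra N Ω]
    (h : F₀) (s : Splitting k F₀ Ω K N) (M L : IntermediateField F₀ Ω) : Prop :=
  ∃ W : ValuationSubring N,
    ZeroAt k W h ∧
    (∀ z : N, algebraMap N Ω z ∈ L → z ∈ W →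
      ∃ c : k, z - algebraMap F₀ N (algebraMap k F₀ c) ∈ W.nonunits) ∧
    InDecomposition s M W ∧
    (∀ s' : Splitting k F₀ Ω K N, InDecomposition s' M W → AgreeOn M s s') ∧
    ∀ W' : ValuationSubring N, ZeroAt k W' h → InDecomposition s M W' →
      ∀ z : N, algebraMap N Ω z ∈ M → (z ∈ W' ↔ z ∈ W)

/-- Let `L ⊆ M ⊆ N`.  Every section of `Gal(N/L) → Gal(K/k)`, that is, every splitting `s` of
`Gal(N/F₀) → Gal(K/k)` all of whose values are the identity on `L`, induces on `M` the section of
exactly one point where `h` is zero, and this is a `k`-rational point of the curve with function field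
`L` (`FromOneZero`). -/
def AllFromOneZero (k : Type) {F₀ Ω : Type} (K N : Type) [Field k] [Field F₀] [Field Ω]
    [Field K] [Field N] [Algebra k F₀] [Algebra k K] [Algebra F₀ N] [Algebra F₀ Ω] [Algebra K Ω]
    [Algebra N Ω] (h : F₀) (M L : IntermediateField F₀ Ω) : Prop :=
  ∀ s : Splitting k F₀ Ω K N, (∀ σ, ∀ z : N, algebraMap N Ω z ∈ L → s.toHom σ z = z) →
    FromOneZero h s M L

/-- Let `F₀` be the function field of a curve `C` over `k` that becomes isomorphic to the curve
`d y^ℓ = g(a x^m)` over `k'`, where the points with `x = 0` or `x = ∞` are the zeros of `h ∈ F₀`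
(`IsForm`).  Let `Ω` be an algebraic closure of `F₀` that contains `k'`, and
`M = proEllField ℓ k F₀ Ω`.  Let `L ⊆ M` be any extension of `F₀`; if it is finite over `F₀` and `k` is
algebraically closed in `L`, it is the function field of a finite étale covering `Y` of `C`,
geometrically connected, and `Gal(M/L)` is the geometrically pro-`ℓ` fundamental group of `Y`.  For all
extensions `N ⊇ M` of `F₀` in `Ω`, for instance `N = M` or the field of `π₁(Y)`, every section of
`Gal(N/L) → G_k`, that is, every continuous homomorphism from `G_k` to the group of automorphisms of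
`N` over `F₀` whose values are the identity on `L` and act as they should on the algebraic closure of
`k`, induces on `M` the section of exactly one point of `Y` above a point of `C` with `x = 0` or
`x = ∞`, and this is a `k`-rational point of `Y`; the section on `M` is determined by `W`. -/
def SectionsOfForms (k : Type) {k' : Type} [Field k] [Field k'] [Algebra k k'] (ℓ m : ℕ) (g : k'[X])
    (a d : k') : Prop :=
  ∀ (F₀ Ω : Type) [Field F₀] [Field Ω] [Algebra k F₀] [Algebra F₀ Ω] [Algebra k Ω]
    [IsScalarTower k F₀ Ω] [IsAlgClosure F₀ Ω] [Algebra k' Ω] [IsScalarTower k k' Ω] (x y : Ω)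
    (h : F₀), IsForm k ℓ m g a d x y h →
    ∀ L N : IntermediateField F₀ Ω, L ≤ proEllField ℓ k F₀ Ω → proEllField ℓ k F₀ Ω ≤ N →
      AllFromOneZero k (algebraicClosure k Ω) N h (proEllField ℓ k F₀ Ω) L

/-- The leading coefficient of `g` is invertible, the reduction of `g(x^m)` is separable, and the
degree of `g(x^m)` is at least 3. -/
def GoodAfterRotation {A : Type} [CommRing A] [IsLocalRing A] (m : ℕ) (g : A[X]) : Prop :=
  IsUnit g.leadingCoeff ∧ ((expand A m g).map (IsLocalRing.residue A)).Separable ∧
    3 ≤ (expand A m g).natDegree

/-- The valuation of `a` is not divisible by `m`: `a = t ϖ^n` with `t` invertible in `A`, `ϖ` a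
uniformiser and `n` not divisible by `m`. -/
def ValuationNotDivisible (A : Type) {k : Type} [CommRing A] [Field k] [Algebra A k] (m : ℕ)
    (a : k) : Prop :=
  ∃ (ϖ t : A) (n : ℤ), Irreducible ϖ ∧ IsUnit t ∧ ¬ (m : ℤ) ∣ n ∧
    a = algebraMap A k t * algebraMap A k ϖ ^ n

end definitions

/-- **The pro-`ℓ` section conjecture for the étale coverings of the forms over `k` of twists by
rotations of superelliptic curves with good reduction over extensions `k'` of `k`.**  Let `A'` be a
complete discrete valuation ring with finite residue field, `k'` its field of fractions, of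
characteristic zero, and `k'/k` a normal extension.  Let `ℓ` be a prime number invertible in `A'`,
`m = ℓ^j` with `j ≥ 1`, let `g ∈ A'[x]` be a polynomial with invertible leading coefficient such that
`g(x^m)` has separable reduction and degree at least 3, let `a ∈ k'` have a valuation that is not
divisible by `m`, and let `d ∈ k'` be not zero.  Let `C` be a curve over `k` that becomes isomorphic
over `k'` to the curve `d y^ℓ = g(a x^m)`, such that the set of the points with `x = 0` or `x = ∞` is
defined over `k`, and let `Y` be an étale covering of `C` whose function field is contained in the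
maximal unramified pro-`ℓ` extension `M` of `k̄ F₀`, where `F₀` is the function field of `C`.  Then every
section of the geometrically pro-`ℓ` fundamental group of `Y` over `k` is the section of exactly one
point of `Y` above a point with `x = 0` or `x = ∞`, and this is a `k`-rational point of `Y`. -/
theorem result (A' k' k : Type) [CommRing A'] [IsDomain A'] [IsDiscreteValuationRing A']
    [IsAdicComplete (IsLocalRing.maximalIdeal A') A'] [Finite (IsLocalRing.ResidueField A')]
    [Field k'] [CharZero k'] [Algebra A' k'] [IsFractionRing A' k'] [Field k] [Algebra k k']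
    [Normal k k'] (ℓ : ℕ) [Fact ℓ.Prime] (hℓ : IsUnit (ℓ : A')) (j : ℕ) (hj : 1 ≤ j) (g : A'[X])
    (hg : GoodAfterRotation (ℓ ^ j) g) (a d : k') (ha : ValuationNotDivisible A' (ℓ ^ j) a)
    (hd : d ≠ 0) :
    SectionsOfForms k ℓ (ℓ ^ j) (g.map (algebraMap A' k')) a d := by
  obtain ⟨hlc, hs, h3⟩ := hg
  obtain ⟨ϖ, t, n, hϖ, ht, hn, haa⟩ := ha
  intro F₀ Ω _ _ _ _ _ _ _ _ _ x y h hform L N hL hN s hsL
  have hchar : CharZero k := (algebraMap k k').charZero
  have hcl : IsAlgClosed Ω := IsAlgClosure.isAlgClosed F₀
  have halg : Algebra.IsAlgebraic F₀ Ω := IsAlgClosure.isAlgebraic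
  obtain ⟨u, hu, hu'⟩ := hform.oneVar
  have hN' := hN
  rw [proEll_eq] at hN'
  have hQ := Pool.Agent.K1H4.SC.rot_unique (F₀ := F₀) hℓ hj g hlc hs h3 ϖ hϖ a d n hn t ht haa hd x y
    hform.trans hform.eqn hform.gen
  obtain ⟨W, h1, h2, h3', h4, h5⟩ := Pool.Agent.K1H4.SC.coreG
    (IntermediateField.adjoin k' {x, y}) hform.gen h _ hform.zeros hQ u hu hu' N hN' s.toHom s.cont
    (fun σ c z hz => s.compat σ c z hz)
  have h4' : InDecomposition s (proEllField ℓ k F₀ Ω) W := by
    rw [proEll_eq]
    exact h4
  refine ⟨W, ⟨h1, h2⟩, fun z hzL hz => ?_, h4', fun s' hs' => ?_, ?_⟩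
  · exact rational_residue L N hL hN s hsL W h1 h3' h4' z hzL hz
  · exact unique_section N hN s s' W h1 h3' h4' hs'
  · rw [proEll_eq]
    exact fun W' b1 b2 => h5 W' b1.1 b1.2 b2

end Pool.Agent.Results.MP_c385f6_ag.FormsOfRotationTwists
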