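import Pool.Agent.K1H4.SC.Moeb
import Pool.Agent.R925.L.Fin
import Pool.Agent.Results.MP_c385f6_ag.EtaleCoverings

/-!
# The pro-`ℓ` section conjecture for superelliptic curves with potentially good reduction

Let `k` be a finite extension of `ℚ_p`, let `k'/k` be a finite Galois extension with valuation ring
`A'`, let `ℓ ≠ p` be a prime number, let `f ∈ A'[x]` be a polynomial with invertible leading
coefficient and separable reduction, whose degree is at least 3 and divisible by `ℓ`, and let
`d ∈ k'` be an element whose valuation is not divisible by `ℓ`.  Let `C` be a smooth projective curve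
over `k` that becomes isomorphic over `k'` to the curve `d y^ℓ = f(x)`, and such that the set of
branch points `f(x) = 0` is defined over `k`.  (For instance `ℓ = 2`: every hyperelliptic curve over
`k` that becomes isomorphic to such a curve `d y² = f(x)` over `k'`.  Nothing is assumed about the
extension `k'/k`, which may be ramified, and about the descent: the map `x` need not be defined over
`k`, and the quotient of `C` by the hyperelliptic involution may be a conic without points.)  Let `F₀`
be the function field of `C`, let `M` be the maximal pro-`ℓ` extension of `k̄ F₀` that is unramified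
over `C`, and let `Y → C` be a finite étale covering, `Y` geometrically connected, with function field
`L ⊆ M`.  Then `Gal(M/L)` is the geometrically pro-`ℓ` fundamental group of `Y`.

**Theorem.**  Every section `s` of `Gal(M/L) → G_k` is the section of exactly one point of `Y` above a
branch point of `C`, and this is a `k`-rational point of `Y`.  Moreover `s` is the only section with
its image in the decomposition group of this point.

So every section of the geometrically pro-`ℓ` fundamental group of such a curve `Y` over `k` comes from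
a rational point, and if `π₁(Y) → G_k` has a section, then `Y` has a rational point; the section
conjecture is reduced to statements of this form.

Let `p ≠ 2`.  A hyperelliptic curve of genus at least 2 over `k` has this form, with `ℓ = 2` and a
suitable `k'`, if and only if it has potentially good reduction and the hyperelliptic involution of the
special fibre is the action of an element of the inertia group of `k` (if `C` has good reduction over
the Galois extension `l/k` and the element `σ` of the inertia group of `l/k` acts on the special fibre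
as the hyperelliptic involution, then over the fixed field `k'` of `σ`, or over an unramified extension
of it, the curve is a ramified quadratic twist of a curve with good reduction).  The starting hand-ins
`MP_c385f6_ag.ProEllSections` and `MP_c385f6_ag.EtaleCoverings` are about the case `k' = k`: the curves
which are ramified twists of curves `y^ℓ = f(x)` with good reduction over `k` itself.

Examples.  Let `p ≥ 5`, `π³ = p` and `k' = ℚ_p(π, ζ₃)`.  The curve `y² = p (x⁶ - p²)` over `ℚ_p` becomes
`π⁻¹ y² = x⁶ - 1` over `k'` (`x` is replaced by `π x` and `y` by `π⁴ y`).  It has no `ℚ_p`-rational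
branch point, and so `π₁(Y) → G_k` has no section for all `Y`.  The curve `y² = x (x³ - p) (x³ - 2 p)`
of genus 3 becomes `π⁻¹ y² = x (x³ - 1) (x³ - 2)` (`x` is replaced by `π x` and `y` by `π³ y`), and
after a transformation of `x` the degree of the polynomial is 8.  The sections of its geometrically
pro-2 fundamental group are those of the two rational branch points `0` and `∞`.

`explicit`, at the end of this file, states what the theorem means for the curve `y^ℓ = P(x)` with
`P ∈ k[x]`: if `d P` becomes one of the polynomials `f` above by a transformation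
`(α x + β) / (γ x + δ)` with coefficients in `k'`, then every section of every étale covering `Y` of this
curve over `k` comes from exactly one point above a root of `P` in `k`, and this is a rational point
of `Y`.

Proof.  The algebraic closure of `k` in `Ω` contains `k'`, and the field `M` is the same for `F₀` and
for `F' = k' F₀`.  The restriction of `s` to `G_{k'}` is a section of `Gal(M/F') → G_{k'}`.  By
`MP_c385f6_ag.ProEllSections` (library `Pool.Agent.Y157.PS`) its image is contained in the
decomposition group of exactly one `W` above a zero of `f(x)`.  Let `σ ∈ G_k`.  As `k'/k` is normal,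
`s(σ)` normalises `s(G_{k'})`, so `s(G_{k'})` is contained in the decomposition group of `s(σ) W`; this
is again above a zero of `f(x)`, because the set of these points is defined over `k`.  So
`s(σ) W = W`: the image of `s` is contained in the decomposition group of `W`.  The residue field of
`W ∩ L` is `k` and `s` is unique, as in `MP_c385f6_ag.EtaleCoverings`.
-/

set_option autoImplicit false
set_option linter.overlappingInstances false

open Polynomial

namespace Pool.Agent.Results.MP_c385f6_ag.PotentiallyGoodCurves

open Pool.Agent.Results.MP_c385f6_ag.EtaleCoverings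

section definitions

/-- Let `k ⊆ k' ⊆ Ω` and `k ⊆ F₀ ⊆ Ω` be fields, `x, y ∈ Ω` and `h ∈ F₀`.  The field `F₀` is the
function field of a curve `C` over `k`, `C` becomes isomorphic to the curve `d y^ℓ = f(x)` over `k'`,
and the set of the branch points `f(x) = 0` is defined over `k`.  That is: `F₀` is an algebraic
extension of `k(u)` for an element `u` transcendental over `k`; `x` is transcendental over `k'`,
`d y^ℓ = f(x)`, and `k'(x, y)` is the compositum `k' F₀`; and the branch points are the zeros of the
function `h ∈ F₀`: a valuation ring of `Ω` that contains `k'` has `h` in its maximal ideal if and only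
if it has `f(x)` in its maximal ideal. -/
structure IsForm (k : Type) {k' F₀ Ω : Type} [Field k] [Field k'] [Field F₀] [Field Ω]
    [Algebra k F₀] [Algebra F₀ Ω] [Algebra k' Ω] (ℓ : ℕ) (f : k'[X]) (d : k') (x y : Ω) (h : F₀) :
    Prop where
  oneVar : ∃ u : F₀, Transcendental k u ∧
    Algebra.IsAlgebraic (IntermediateField.adjoin k {u}) F₀
  trans : Transcendental k' x
  eqn : algebraMap k' Ω d * y ^ ℓ = aeval x f
  gen : IntermediateField.adjoin k' {x, y} =
    IntermediateField.adjoin k' (Set.range (algebraMap F₀ Ω))
  zeros : ∀ V : ValuationSubring Ω, (∀ c : k', algebraMap k' Ω c ∈ V) →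
    (algebraMap F₀ Ω h ∈ V.nonunits ↔ aeval x f ∈ V.nonunits)

/-- Let the splitting `s` of `Gal(N/F₀) → Gal(K/k)` have its image in `Gal(N/L)`, `L ⊆ M ⊆ N`, and
let `f` be a polynomial over `k' ⊆ Ω`, `x ∈ Ω` and `h ∈ F₀`.  The splitting `s` induces on `M` the
section of exactly one point where `h` is zero, and this is a `k`-rational point of the curve with
function field `L`: there is a valuation ring `W` of `N` that contains `k`, with `h` in its maximal
ideal, above a branch point `x = e`, where `e ∈ k'` is a root of `f` (`x - e` is in `N` and in the maximal ideal of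
`W`), such that the residue field of `W ∩ L` is `k`, and such that the image of `s` in `Gal(M/L)` is
contained in the decomposition group of `W ∩ M`; all splittings with the last property induce the same
section on `M`; and `W ∩ M` is the only such valuation ring where `h` is zero. -/
def FromOneBranchPoint {k k' F₀ Ω K N : Type} [Field k] [Field k'] [Field F₀] [Field Ω] [Field K]
    [Field N] [Algebra k F₀] [Algebra k K] [Algebra F₀ N] [Algebra F₀ Ω] [Algebra K Ω]
    [Algebra N Ω] [Algebra k' Ω] (f : k'[X]) (x : Ω) (h : F₀) (s : Splitting k F₀ Ω K N)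
    (M L : IntermediateField F₀ Ω) : Prop :=
  ∃ W : ValuationSubring N,
    ZeroAt k W h ∧
    (∃ e : k', f.eval e = 0 ∧
      ∃ w : N, algebraMap N Ω w = x - algebraMap k' Ω e ∧ w ∈ W.nonunits) ∧
    (∀ z : N, algebraMap N Ω z ∈ L → z ∈ W →
      ∃ c : k, z - algebraMap F₀ N (algebraMap k F₀ c) ∈ W.nonunits) ∧
    InDecomposition s M W ∧
    (∀ s' : Splitting k F₀ Ω K N, InDecomposition s' M W → AgreeOn M s s') ∧
    ∀ W' : ValuationSubring N, ZeroAt k W' h → InDecomposition s M W' →
      ∀ z : N, algebraMap N Ω z ∈ M → (z ∈ W' ↔ z ∈ W)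

/-- Let `L ⊆ M ⊆ N`.  Every section of `Gal(N/L) → Gal(K/k)`, that is, every splitting `s` of
`Gal(N/F₀) → Gal(K/k)` all of whose values are the identity on `L`, induces on `M` the section of
exactly one point where `h` is zero, and this is a `k`-rational point of the curve with function field
`L` (`FromOneBranchPoint`). -/
def AllFromOneBranchPoint (k : Type) {k' F₀ Ω : Type} (K N : Type) [Field k] [Field k']
    [Field F₀] [Field Ω] [Field K] [Field N] [Algebra k F₀] [Algebra k K] [Algebra F₀ N] [Algebra F₀ Ω] [Algebra K Ω]
    [Algebra N Ω] [Algebra k' Ω] (f : k'[X]) (x : Ω) (h : F₀) (M L : IntermediateField F₀ Ω) : Prop :=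
  ∀ s : Splitting k F₀ Ω K N, (∀ σ, ∀ z : N, algebraMap N Ω z ∈ L → s.toHom σ z = z) →
    FromOneBranchPoint f x h s M L

/-- Let `F₀` be the function field of a curve `C` over `k` that becomes isomorphic to the curve
`d y^ℓ = f(x)` over `k'`, where the branch points are the zeros of `h ∈ F₀` (`IsForm`).  Let `Ω` be an
algebraic closure of `F₀` that contains `k'`, and `M = proEllField ℓ k F₀ Ω`.  Let `L ⊆ M` be any
extension of `F₀`; if it is finite over `F₀` and `k` is algebraically closed in `L`, it is the function
field of a finite étale covering `Y` of `C`, geometrically connected, and `Gal(M/L)` is the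
geometrically pro-`ℓ` fundamental group of `Y`.  For all extensions `N ⊇ M` of `F₀` in `Ω`, for instance
`N = M` or the field of `π₁(Y)`, every section of `Gal(N/L) → G_k`, that is, every continuous
homomorphism from `G_k` to the group of automorphisms of `N` over `F₀` whose values are the identity on
`L` and act as they should on the algebraic closure of `k`, induces on `M` the section of exactly one
point of `Y` above a branch point of `C`, and this is a `k`-rational point of `Y`; the section on `M` is
determined by `W`. -/
def SectionsOfForms (k : Type) {k' : Type} [Field k] [Field k'] [Algebra k k'] (ℓ : ℕ) (f : k'[X])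
    (d : k') : Prop :=
  ∀ (F₀ Ω : Type) [Field F₀] [Field Ω] [Algebra k F₀] [Algebra F₀ Ω] [Algebra k Ω]
    [IsScalarTower k F₀ Ω] [IsAlgClosure F₀ Ω] [Algebra k' Ω] [IsScalarTower k k' Ω] (x y : Ω)
    (h : F₀), IsForm k ℓ f d x y h →
    ∀ L N : IntermediateField F₀ Ω, L ≤ proEllField ℓ k F₀ Ω → proEllField ℓ k F₀ Ω ≤ N →
      AllFromOneBranchPoint k (algebraicClosure k Ω) N f x h (proEllField ℓ k F₀ Ω) L

/-- `(γ X + δ)^n f((α X + β) / (γ X + δ))`, where `n` is the degree of `f`. -/
noncomputable def transform {k' : Type} [Field k'] (f : k'[X]) (α β γ δ : k') : k'[X] :=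
  ∑ i ∈ Finset.range (f.natDegree + 1),
    C (f.coeff i) * (C α * X + C β) ^ i * (C γ * X + C δ) ^ (f.natDegree - i)

end definitions

section proof

variable {A' k' k : Type} [CommRing A'] [IsDomain A'] [IsDiscreteValuationRing A']
  [IsAdicComplete (IsLocalRing.maximalIdeal A') A'] [Finite (IsLocalRing.ResidueField A')]
  [Field k'] [CharZero k'] [Algebra A' k'] [IsFractionRing A' k'] [Field k] [Algebra k k']
  [Normal k k'] {ℓ : ℕ} [Fact ℓ.Prime] {f : A'[X]} {d : k'}

/-- the theorem for the forms of the curve `d y^ℓ = f(x)` -/
theorem forms (hℓ : IsUnit (ℓ : A')) (hf : GoodPolynomial ℓ f) (hd : ValuationPrimeTo A' ℓ d) :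
    SectionsOfForms k ℓ (f.map (algebraMap A' k')) d := by
  obtain ⟨hlc, hs, hdvd, h3⟩ := hf
  obtain ⟨ϖ, t, m, hϖ, ht, hm, hdd⟩ := hd
  intro F₀ Ω _ _ _ _ _ _ _ _ _ x y h hform L N hL hN s hsL
  have hchar : CharZero k := (algebraMap k k').charZero
  have hcl : IsAlgClosed Ω := IsAlgClosure.isAlgClosed F₀
  have halg : Algebra.IsAlgebraic F₀ Ω := IsAlgClosure.isAlgebraic
  obtain ⟨u, hu, hu'⟩ := hform.oneVar
  have hN' := hN
  rw [proEll_eq] at hN'
  obtain ⟨W, h1, h2, ⟨e, he, w, hw, hw'⟩, h3', h4, h5⟩ := Pool.Agent.K1H4.SC.core hℓ f hlc hs hdvd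
    h3 ϖ hϖ d m hm t ht hdd x y hform.trans hform.eqn hform.gen h hform.zeros u hu hu' N hN'
    s.toHom s.cont (fun σ c z hz => s.compat σ c z hz)
  have h4' : InDecomposition s (proEllField ℓ k F₀ Ω) W := by
    rw [proEll_eq]
    exact h4
  refine ⟨W, ⟨h1, h2⟩, ⟨e, ?_, w, hw, hw'⟩, fun z hzL hz => ?_, h4', fun s' hs' => ?_, ?_⟩
  · rwa [aeval_def, Algebra.algebraMap_self, eval₂_id] at he
  · exact rational_residue L N hL hN s hsL W h1 h3' h4' z hzL hz
  · exact unique_section N hN s s' W h1 h3' h4' hs'
  · rw [proEll_eq]
    exact fun W' b1 b2 => h5 W' b1.1 b1.2 b2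

/-- The curve `y^ℓ = P(x)` over `k`, where `d P = (γ X + δ)^n f((α X + β) / (γ X + δ))` with
`α, β, γ, δ ∈ k'`, `α δ - β γ ≠ 0`: every section of every étale covering `Y` of this curve comes from
exactly one point above a root of `P` in `k`, and this is a `k`-rational point of `Y`. -/
theorem explicit (hℓ : IsUnit (ℓ : A')) (hf : GoodPolynomial ℓ f) (hd : ValuationPrimeTo A' ℓ d)
    (P : k[X]) (α β γ δ : k') (hdet : α * δ - β * γ ≠ 0) (hdeg : P.natDegree = f.natDegree)
    (hP : C d * P.map (algebraMap k k') = transform (f.map (algebraMap A' k')) α β γ δ) :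
    SectionsOfCoverings k ℓ P 1 := by
  intro F Ω _ _ _ _ _ _ _ x₀ y₀ hfun L N hL hN s hsL
  obtain ⟨hx₀, hxy₀, hF⟩ := hfun
  have hcl : IsAlgClosed Ω := IsAlgClosure.isAlgClosed F
  let φ : k' →ₐ[k] Ω := IsAlgClosed.lift
  let _ : Algebra k' Ω := φ.toRingHom.toAlgebra
  have _ : IsScalarTower k k' Ω := IsScalarTower.of_algebraMap_eq fun c => (φ.commutes c).symm
  have hP' : C d * P.map (algebraMap k k') =
      Pool.Agent.K1H4.SC.homog (f.map (algebraMap A' k')) α β γ δ := hP
  have hd0 : d ≠ 0 := by
    obtain ⟨ϖ, t, m, hϖ, ht, hm, hdd⟩ := hd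
    rw [hdd]
    refine mul_ne_zero ?_ (zpow_ne_zero _ ?_)
    · rw [Ne, map_eq_zero_iff _ (IsFractionRing.injective A' k')]
      exact ht.ne_zero
    · rw [Ne, map_eq_zero_iff _ (IsFractionRing.injective A' k')]
      exact hϖ.ne_zero
  have hfdeg : (f.map (algebraMap A' k')).natDegree = f.natDegree :=
    natDegree_map_eq_of_injective (IsFractionRing.injective A' k') f
  have hn3 : 3 ≤ f.natDegree := hf.2.2.2
  -- the coordinates
  set X₀ : Ω := algebraMap F Ω x₀ with hX₀
  set Y₀ : Ω := algebraMap F Ω y₀ with hY₀
  set D : Ω := algebraMap k' Ω γ * X₀ + algebraMap k' Ω δ with hD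
  set E : Ω := algebraMap k' Ω α * X₀ + algebraMap k' Ω β with hE
  have hX₀t : Transcendental k' X₀ := by
    intro h1
    apply hx₀
    have h2 : IsAlgebraic k X₀ := h1.restrictScalars k
    exact (isAlgebraic_algebraMap_iff (algebraMap F Ω).injective).1 h2
  have hD0 : D ≠ 0 := by
    intro h1
    by_cases hγ : γ = 0
    · rw [hD, hγ, map_zero, zero_mul, zero_add, map_eq_zero] at h1
      apply hdet
      rw [hγ, h1]; ring
    · apply hX₀t
      have h2 : X₀ = algebraMap k' Ω (-δ / γ) := by
        have hγ' : algebraMap k' Ω γ ≠ 0 := (_root_.map_ne_zero _).2 hγ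
        rw [map_div₀, map_neg, eq_div_iff hγ']
        linear_combination h1
      rw [h2]
      exact isAlgebraic_algebraMap _
  obtain ⟨r, hr⟩ := hf.2.2.1
  set x : Ω := E / D with hx
  set y : Ω := Y₀ / D ^ r with hy
  have hlin : algebraMap k' Ω α - algebraMap k' Ω γ * x = algebraMap k' Ω (α * δ - β * γ) / D := by
    rw [hx, map_sub, map_mul, map_mul, eq_div_iff hD0, hE, hD]
    have hD0' : algebraMap k' Ω γ * X₀ + algebraMap k' Ω δ ≠ 0 := hD0
    field_simp
    ring
  have hdet' : algebraMap k' Ω (α * δ - β * γ) ≠ 0 := (_root_.map_ne_zero _).2 hdet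
  have hlin0 : algebraMap k' Ω α - algebraMap k' Ω γ * x ≠ 0 := by
    rw [hlin]
    exact div_ne_zero hdet' hD0
  have hXx : X₀ = (algebraMap k' Ω δ * x - algebraMap k' Ω β) /
      (algebraMap k' Ω α - algebraMap k' Ω γ * x) := by
    rw [eq_div_iff hlin0, hx]
    have h1 : X₀ * (algebraMap k' Ω α - algebraMap k' Ω γ * (E / D)) * D =
        (algebraMap k' Ω δ * (E / D) - algebraMap k' Ω β) * D := by
      have h2 : E / D * D = E := div_mul_cancel₀ E hD0
      have h3 : X₀ * (algebraMap k' Ω α - algebraMap k' Ω γ * (E / D)) * D =
          X₀ * (algebraMap k' Ω α * D - algebraMap k' Ω γ * (E / D * D)) := by ring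
      have h4 : (algebraMap k' Ω δ * (E / D) - algebraMap k' Ω β) * D =
          algebraMap k' Ω δ * (E / D * D) - algebraMap k' Ω β * D := by ring
      rw [h3, h4, h2, hE, hD]
      ring
    exact mul_right_cancel₀ hD0 h1
  have hPX : algebraMap k' Ω d * aeval X₀ (P.map (algebraMap k k')) =
      D ^ f.natDegree * aeval x (f.map (algebraMap A' k')) := by
    have h1 := Pool.Agent.K1H4.SC.aeval_homog (f.map (algebraMap A' k')) α β γ δ X₀ hD0
    rw [← hP', map_mul, aeval_C, hfdeg] at h1
    exact h1
  have hPX₀ : aeval X₀ (P.map (algebraMap k k')) = algebraMap F Ω (aeval x₀ P) := by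
    rw [aeval_map_algebraMap, hX₀, aeval_algebraMap_apply]
  have hY : Y₀ ^ ℓ = algebraMap F Ω (aeval x₀ P) := by
    rw [← hxy₀, map_one, one_mul, map_pow]
  have heqn : algebraMap k' Ω d * y ^ ℓ = aeval x (f.map (algebraMap A' k')) := by
    rw [hy, div_pow, hY, ← hPX₀, ← pow_mul, mul_comm r ℓ, ← hr, ← mul_div_assoc, hPX]
    exact mul_div_cancel_left₀ _ (pow_ne_zero _ hD0)
  have hxt : Transcendental k' x := by
    intro h1
    apply hX₀t
    rw [hXx]
    have h2 : IsAlgebraic k' (algebraMap k' Ω δ * x - algebraMap k' Ω β) :=
      ((isAlgebraic_algebraMap δ).mul h1).sub (isAlgebraic_algebraMap β)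
    have h3 : IsAlgebraic k' (algebraMap k' Ω α - algebraMap k' Ω γ * x) :=
      (isAlgebraic_algebraMap α).sub ((isAlgebraic_algebraMap γ).mul h1)
    rw [div_eq_mul_inv]
    exact h2.mul h3.inv
  have hgen : IntermediateField.adjoin k' {x, y} =
      IntermediateField.adjoin k' (Set.range (algebraMap F Ω)) := by
    apply le_antisymm
    · rw [IntermediateField.adjoin_le_iff]
      have hX : X₀ ∈ IntermediateField.adjoin k' (Set.range (algebraMap F Ω)) :=
        IntermediateField.subset_adjoin _ _ ⟨x₀, rfl⟩
      have hYm : Y₀ ∈ IntermediateField.adjoin k' (Set.range (algebraMap F Ω)) :=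
        IntermediateField.subset_adjoin _ _ ⟨y₀, rfl⟩
      have hDm : D ∈ IntermediateField.adjoin k' (Set.range (algebraMap F Ω)) :=
        add_mem (mul_mem (IntermediateField.algebraMap_mem _ _) hX)
          (IntermediateField.algebraMap_mem _ _)
      have hEm : E ∈ IntermediateField.adjoin k' (Set.range (algebraMap F Ω)) :=
        add_mem (mul_mem (IntermediateField.algebraMap_mem _ _) hX)
          (IntermediateField.algebraMap_mem _ _)
      rintro z (rfl | rfl)
      · exact div_mem hEm hDm
      · exact div_mem hYm (pow_mem hDm r)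
    · rw [IntermediateField.adjoin_le_iff]
      have hxm : x ∈ IntermediateField.adjoin k' {x, y} :=
        IntermediateField.subset_adjoin _ _ (by simp)
      have hym : y ∈ IntermediateField.adjoin k' {x, y} :=
        IntermediateField.subset_adjoin _ _ (by simp)
      have hX : X₀ ∈ IntermediateField.adjoin k' {x, y} := by
        rw [hXx]
        exact div_mem (sub_mem (mul_mem (IntermediateField.algebraMap_mem _ _) hxm)
          (IntermediateField.algebraMap_mem _ _)) (sub_mem (IntermediateField.algebraMap_mem _ _)
          (mul_mem (IntermediateField.algebraMap_mem _ _) hxm))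
      have hDm : D ∈ IntermediateField.adjoin k' {x, y} :=
        add_mem (mul_mem (IntermediateField.algebraMap_mem _ _) hX)
          (IntermediateField.algebraMap_mem _ _)
      have hYm : Y₀ ∈ IntermediateField.adjoin k' {x, y} := by
        have h1 : Y₀ = y * D ^ r := by
          rw [hy, div_mul_cancel₀ _ (pow_ne_zero _ hD0)]
        rw [h1]
        exact mul_mem hym (pow_mem hDm r)
      have h2 : IntermediateField.adjoin k {x₀, y₀} ≤
          ((IntermediateField.adjoin k' {x, y}).restrictScalars k).comap
            (IsScalarTower.toAlgHom k F Ω) := by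
        rw [IntermediateField.adjoin_le_iff]
        rintro z (rfl | rfl)
        · exact hX
        · exact hYm
      rw [hF] at h2
      rintro z ⟨a, rfl⟩
      exact h2 (IntermediateField.mem_top (x := a))
  have hform : IsForm k ℓ (f.map (algebraMap A' k')) d x y (aeval x₀ P) := by
    refine ⟨⟨x₀, hx₀, ?_⟩, hxt, heqn, hgen, fun V hV => ?_⟩
    · exact Pool.Agent.Y157.PS.alg_of_eqn (Fact.out : ℓ.Prime).pos P 1 one_ne_zero x₀ y₀ hxy₀ hF
    · have h1 := Pool.Agent.K1H4.SC.branch V hV (f.map (algebraMap A' k')) (P.map (algebraMap k k'))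
        d⁻¹ α β γ δ (inv_ne_zero hd0) hdet (by
          rw [← hP', ← mul_assoc, ← C_mul, inv_mul_cancel₀ hd0, C_1, one_mul])
        (by rw [natDegree_map, hdeg, hfdeg]) (by rw [hfdeg]; omega) X₀ hD0
      rw [hPX₀] at h1
      exact h1
  obtain ⟨W, ⟨hk, hW⟩, -, hres, hdec, huni, hall⟩ :=
    forms hℓ hf hd F Ω x y (aeval x₀ P) hform L N hL hN s hsL
  -- the residue of `x₀`
  have hkN' : ∀ c : k, algebraMap k N c = algebraMap F N (algebraMap k F c) := fun c =>
    Subtype.ext (IsScalarTower.algebraMap_apply k F Ω c)
  have hkN : ∀ c : k, algebraMap k N c ∈ W := fun c => by rw [hkN']; exact hk c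
  have hPN : aeval (algebraMap F N x₀) P = algebraMap F N (aeval x₀ P) :=
    aeval_algebraMap_apply _ _ _
  have hPW : aeval (algebraMap F N x₀) P ∈ W.nonunits := by
    rw [hPN]
    exact hW
  have hxW : algebraMap F N x₀ ∈ W :=
    Pool.Agent.K1H4.SC.pole W hkN P (by rw [hdeg]; omega) _ (ValuationSubring.nonunits_subset hPW)
  obtain ⟨c, hc⟩ := hres (algebraMap F N x₀) (L.algebraMap_mem x₀) hxW
  rw [← hkN'] at hc
  have hc1 : P.eval c = 0 := by
    obtain ⟨q, hq⟩ := dvd_iff_isRoot.2 (show (P - C (P.eval c)).IsRoot c by simp)
    have h1 : aeval (algebraMap F N x₀) P - algebraMap k N (P.eval c) =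
        (algebraMap F N x₀ - algebraMap k N c) * aeval (algebraMap F N x₀) q := by
      have := congrArg (aeval (algebraMap F N x₀)) hq
      rwa [map_sub, aeval_C, map_mul, map_sub, aeval_X, aeval_C] at this
    have h2 : aeval (algebraMap F N x₀) q ∈ W := Pool.Agent.K1H4.SC.mem_of_poly W hkN q _ hxW
    have h3 : aeval (algebraMap F N x₀) P - algebraMap k N (P.eval c) ∈ W.nonunits := by
      rw [h1, ValuationSubring.mem_nonunits_iff, map_mul]
      exact lt_of_le_of_lt (mul_le_of_le_one_right'
        ((ValuationSubring.valuation_le_one_iff W _).2 h2))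
        ((ValuationSubring.mem_nonunits_iff W).1 hc)
    refine Pool.Agent.K1H4.SC.non_zero (algebraMap k N) W hkN _ ?_
    have h4 : algebraMap k N (P.eval c) = aeval (algebraMap F N x₀) P -
        (aeval (algebraMap F N x₀) P - algebraMap k N (P.eval c)) := by ring
    rw [h4, ValuationSubring.mem_nonunits_iff]
    rw [ValuationSubring.mem_nonunits_iff] at h3 hPW
    exact lt_of_le_of_lt (Valuation.map_sub _ _ _) (max_lt hPW h3)
  refine ⟨W, ⟨c, hc1, hk, ?_⟩, hres, hdec, huni, hall⟩
  rw [map_sub, ← hkN']
  exact hc

end proof

/-- **The pro-`ℓ` section conjecture for the étale coverings of the forms over `k` of ramified twists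
of superelliptic curves with good reduction over extensions `k'` of `k`.**  Let `A'` be a complete
discrete valuation ring with finite residue field, `k'` its field of fractions, of characteristic zero,
and `k'/k` a normal extension.  Let `ℓ` be a prime number invertible in `A'`, let `f ∈ A'[x]` be a
polynomial with invertible leading coefficient and separable reduction, whose degree is at least 3 and
divisible by `ℓ`, and let `d ∈ k'` have a valuation that is not divisible by `ℓ`.  Let `C` be a curve
over `k` that becomes isomorphic over `k'` to the curve `d y^ℓ = f(x)`, such that the set of branch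
points is defined over `k`, and let `Y` be an étale covering of `C` whose function field is contained
in the maximal unramified pro-`ℓ` extension `M` of `k̄ F₀`, where `F₀` is the function field of `C`.  Then
every section of the geometrically pro-`ℓ` fundamental group of `Y` over `k` is the section of exactly
one point of `Y` above a branch point, and this is a `k`-rational point of `Y`. -/
theorem result (A' k' k : Type) [CommRing A'] [IsDomain A'] [IsDiscreteValuationRing A']
    [IsAdicComplete (IsLocalRing.maximalIdeal A') A'] [Finite (IsLocalRing.ResidueField A')]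
    [Field k'] [CharZero k'] [Algebra A' k'] [IsFractionRing A' k'] [Field k] [Algebra k k']
    [Normal k k'] (ℓ : ℕ) [Fact ℓ.Prime] (hℓ : IsUnit (ℓ : A')) (f : A'[X])
    (hf : GoodPolynomial ℓ f) (d : k') (hd : ValuationPrimeTo A' ℓ d) :
    SectionsOfForms k ℓ (f.map (algebraMap A' k')) d :=
  forms hℓ hf hd

end Pool.Agent.Results.MP_c385f6_ag.PotentiallyGoodCurves
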